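import Mathlib
import Pool.Agent.H14.INS.PCAP

/-!
# MP_621202_pr: an ergodic probabilistic cellular automaton which is not uniformly ergodic

Dimension `1`, neighbourhood `{-1, 0, 1}`, an alphabet with six letters.  The automaton is ergodic,
its invariant measure gives mass `0` to a one-site cylinder set, and at every time `t ≥ 1` some
deterministic initial configuration still gives this set mass at least `1 / 2`.
-/

open MeasureTheory Pool.PCAut

namespace Pool.Agent.Results.MP_621202_pr.ErgodicNotUniform

/-- The negated form of Q1. -/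
theorem result :
    ∃ φ : (({-1, 0, 1} : Finset (Fin 1 → ℤ)) → Fin 3 × Bool) → ProbabilityMeasure (Fin 3 × Bool),
      Measurable (next _ φ) ∧ Ergodic _ φ ∧ ¬ UniformlyErgodic _ φ ∧
      ∃ (π : Measure (Conf 1 (Fin 3 × Bool))) (a : Conf 1 (Fin 3 × Bool)),
        UniqueInvariant _ φ π ∧ π (cyl {0} a) = 0 ∧
        ∀ t : ℕ, 1 ≤ t → ∃ x : Conf 1 (Fin 3 × Bool),
          1 / 2 ≤ ((act _ φ)^[t] (Measure.dirac x)) (cyl {0} a) :=
  ⟨Pool.Agent.H96.PCA.f,
    by
      have h := Pool.Agent.H96.PCA.κ.measurable
      rw [← next_eq] at h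
      exact h,
    ergodic_f, not_uniform, _, aL, unique_lim, lim_zero, stays⟩

end Pool.Agent.Results.MP_621202_pr.ErgodicNotUniform
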